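import Mathlib
import Pool.Agent.Helper25.EMN.Inst

/-!
Counterexamples, for every exponent `m` at least two, for the class of groups in which every
infinite subset contains two distinct elements `x, y` such that `x` and its conjugate by `y`
generate a subgroup with a normal subgroup of exponent dividing `m` and nilpotent quotient.
-/

namespace Pool.Agent.Results.MP_e0c8e7_al.AllExponents

/-- A class of groups (of types in the lowest universe). -/
abbrev GroupClass := (G : Type) → [Group G] → Prop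

/-- The class of finite groups. -/
def FinCl : GroupClass := fun G _ => Finite G

/-- The class of nilpotent groups. -/
def NilCl : GroupClass := fun G _ => Group.IsNilpotent G

/-- The class of groups of exponent dividing `m`. -/
def ExpCl (m : ℕ) : GroupClass := fun G _ => ∀ g : G, g ^ m = 1

/-- The product of two classes: a normal subgroup in the first class whose quotient lies in
the second class. -/
def MulCl (X Y : GroupClass) : GroupClass := fun G _ =>
  ∃ (K : Subgroup G) (_ : K.Normal), X K ∧ Y (G ⧸ K)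

/-- The class of groups `G` such that every infinite subset `S` of `G` contains elements
`x ≠ y` for which the subgroup generated by `x` and `y⁻¹ x y` lies in `X`. -/
def StarCl (X : GroupClass) : GroupClass := fun G _ =>
  ∀ S : Set G, S.Infinite → ∃ x ∈ S, ∃ y ∈ S, x ≠ y ∧
    X (Subgroup.closure ({x, y⁻¹ * x * y} : Set G))

/-- For every `m ≥ 2` there is a finitely generated soluble group which lies in the class
`StarCl (MulCl (ExpCl m) NilCl)` but not in `MulCl (ExpCl m) (MulCl FinCl NilCl)`. Indeed for every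
prime `p` and every `a ≥ 1` one group `G` serves for all `m` which are divisible by `p ^ a` but not by
`p ^ (a + 1)`, and the condition on pairs `x, y` holds for all pairs of elements of `G`. -/
theorem result :
    (∀ m : ℕ, 2 ≤ m → ∃ (G : Type) (_ : Group G), Group.FG G ∧ Group.IsSolvable G ∧
      StarCl (MulCl (ExpCl m) NilCl) G ∧ ¬ MulCl (ExpCl m) (MulCl FinCl NilCl) G) ∧
    ∀ p a : ℕ, p.Prime → 1 ≤ a → ∃ (G : Type) (_ : Group G), Group.FG G ∧ Group.IsSolvable G ∧
      ∀ m : ℕ, p ^ a ∣ m → ¬ p ^ (a + 1) ∣ m →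
        (∀ x y : G, MulCl (ExpCl m) NilCl (Subgroup.closure ({x, y⁻¹ * x * y} : Set G))) ∧
        StarCl (MulCl (ExpCl m) NilCl) G ∧ ¬ MulCl (ExpCl m) (MulCl FinCl NilCl) G := by
  have key : ∀ p a : ℕ, p.Prime → 1 ≤ a → ∃ (G : Type) (_ : Group G), Group.FG G ∧
      Group.IsSolvable G ∧ ∀ m : ℕ, p ^ a ∣ m → ¬ p ^ (a + 1) ∣ m →
        (∀ x y : G, MulCl (ExpCl m) NilCl (Subgroup.closure ({x, y⁻¹ * x * y} : Set G))) ∧
        StarCl (MulCl (ExpCl m) NilCl) G ∧ ¬ MulCl (ExpCl m) (MulCl FinCl NilCl) G := by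
    intro p a hp ha
    obtain ⟨G, hG, h1, h2, h3, h4⟩ := Pool.Agent.Helper25.EMN.main (a := a) hp ha
    refine ⟨G, hG, h1, h2, ?_⟩
    rintro m ⟨k, hmk⟩ hnd
    have hk : ¬ p ∣ k := by
      rintro ⟨l, hl⟩
      apply hnd
      rw [hmk, hl, pow_succ]
      exact mul_dvd_mul_left _ (dvd_mul_right _ _)
    have hall : ∀ x y : G,
        MulCl (ExpCl m) NilCl (Subgroup.closure ({x, y⁻¹ * x * y} : Set G)) := by
      intro x y
      obtain ⟨K, hKn, hK, hKnil⟩ := h3 x y
      refine ⟨K, hKn, fun g => ?_, hKnil⟩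
      rw [hmk, pow_mul, hK g, one_pow]
    refine ⟨hall, fun S hS => ?_, ?_⟩
    · obtain ⟨x, hx, y, hy, hxy⟩ := hS.nontrivial
      exact ⟨x, hx, y, hy, hxy, hall x y⟩
    · rintro ⟨L, hLn, hL, F, hFn, hFfin, hFnil⟩
      have hfin : Finite F := hFfin
      have hgcd : Nat.gcd m (p ^ a * p) = p ^ a := by
        have h5 : Nat.gcd k p = 1 := (hp.coprime_iff_not_dvd.mpr hk).symm
        rw [hmk, Nat.gcd_mul_left, h5, mul_one]
      exact h4 m hgcd L (fun g hg => by simpa using congrArg Subtype.val (hL ⟨g, hg⟩)) F hFnil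
  refine ⟨fun m hm => ?_, key⟩
  obtain ⟨p, hp, hpm⟩ := Nat.exists_prime_and_dvd (n := m) (by omega)
  obtain ⟨a, k, hk, hmk⟩ := Nat.exists_eq_pow_mul_and_not_dvd (n := m) (by omega) p hp.one_lt.ne'
  have ha : 1 ≤ a := by
    by_contra h0
    have : a = 0 := by omega
    rw [this, pow_zero, one_mul] at hmk
    exact hk (hmk ▸ hpm)
  obtain ⟨G, hG, h1, h2, h3⟩ := key p a hp ha
  have hnd : ¬ p ^ (a + 1) ∣ m := by
    intro h
    rw [hmk, pow_succ] at h
    exact hk (Nat.dvd_of_mul_dvd_mul_left (pow_pos hp.pos a) h)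
  exact ⟨G, hG, h1, h2, (h3 m ⟨k, hmk⟩ hnd).2⟩

end Pool.Agent.Results.MP_e0c8e7_al.AllExponents
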